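import Mathlib
import Pool.Agent.H.MP_558b4e_nt.A

namespace Pool.Agent.Results.MP_558b4e_nt.Full

theorem result : ∀ n : ℕ, 0 < n → ∃ m : ℕ, 0 < m ∧ Nat.gcd m n = 1 ∧
    ∃ c : ℕ, (2 * (m + n)).choose (m + n) = (m + n + 1) * (m * n * c) := by
  intro n hn
  obtain ⟨m, h1, h2, c, hc⟩ := Pool.Agent.H.MP_558b4e_nt.main n hn
  exact ⟨m, h1, h2, c, by
    rw [← hc, succ_mul_catalan_eq_centralBinom, Nat.centralBinom_eq_two_mul_choose]⟩

end Pool.Agent.Results.MP_558b4e_nt.Full
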